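import Pool.Agent.CRT.Stmts

/-!
# Squad CRT, row LAT: lattice sums
-/

namespace Pool.Agent.CRT.H16

open Set Filter Topology MeasureTheory

noncomputable section

theorem sum_inv_sqrt (n : ℕ) :
    ∑ k ∈ Finset.range n, 1 / Real.sqrt (1 + k) ≤ 2 * Real.sqrt n := by
  induction n with
  | zero => simp
  | succ n ih =>
    rw [Finset.sum_range_succ]
    have h1 : (0 : ℝ) < 1 + n := by positivity
    have h2 : 0 < Real.sqrt (1 + (n : ℝ)) := Real.sqrt_pos.2 h1
    have h3 : 0 ≤ Real.sqrt (n : ℝ) := Real.sqrt_nonneg _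
    have h4 : Real.sqrt (1 + (n : ℝ)) ^ 2 = 1 + n := Real.sq_sqrt h1.le
    have h5 : Real.sqrt (n : ℝ) ^ 2 = n := Real.sq_sqrt (Nat.cast_nonneg n)
    have h6 : Real.sqrt (n : ℝ) ≤ Real.sqrt (1 + (n : ℝ)) := Real.sqrt_le_sqrt (by linarith)
    have h7 : 1 / Real.sqrt (1 + (n : ℝ)) ≤ 2 * (Real.sqrt (1 + (n : ℝ)) - Real.sqrt n) := by
      rw [div_le_iff₀ h2]
      nlinarith
    have h8 : ((n + 1 : ℕ) : ℝ) = 1 + n := by
      push_cast
      ring
    rw [h8]
    linarith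

theorem sum_line (a : ℤ) (r : ℕ) :
    ∑ x ∈ Finset.Icc (a - r) (a + r), 1 / Real.sqrt (1 + |(x : ℝ) - a|) ≤
      4 * Real.sqrt (r + 1) := by
  have h1 : ∀ x ∈ Finset.Icc (a - r) (a + r), (x - a).natAbs ∈ Finset.range (r + 1) := by
    intro x hx
    rw [Finset.mem_Icc] at hx
    rw [Finset.mem_range]
    omega
  rw [← Finset.sum_fiberwise_of_maps_to h1]
  have h2 : ∀ k ∈ Finset.range (r + 1), ∑ x ∈ Finset.Icc (a - r) (a + r) with
      (x - a).natAbs = k, 1 / Real.sqrt (1 + |(x : ℝ) - a|) ≤ 2 * (1 / Real.sqrt (1 + k)) := by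
    intro k _
    have h3 : ∀ x ∈ (Finset.Icc (a - r) (a + r)).filter (fun x => (x - a).natAbs = k),
        1 / Real.sqrt (1 + |(x : ℝ) - a|) = 1 / Real.sqrt (1 + k) := by
      intro x hx
      rw [Finset.mem_filter] at hx
      have h4 : |(x : ℝ) - a| = k := by
        have h5 : ((x - a : ℤ) : ℝ) = (x : ℝ) - a := by push_cast; ring
        rw [← h5, ← Int.cast_abs, Int.abs_eq_natAbs, hx.2]
        norm_num
      rw [h4]
    rw [Finset.sum_congr rfl h3, Finset.sum_const, nsmul_eq_mul]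
    have h6 : ((Finset.Icc (a - r) (a + r)).filter (fun x => (x - a).natAbs = k)).card ≤ 2 := by
      have h7 : (Finset.Icc (a - r) (a + r)).filter (fun x => (x - a).natAbs = k) ⊆
          {a + k, a - k} := by
        intro x hx
        rw [Finset.mem_filter] at hx
        rw [Finset.mem_insert, Finset.mem_singleton]
        omega
      exact (Finset.card_le_card h7).trans Finset.card_le_two
    have h8 : (0 : ℝ) ≤ 1 / Real.sqrt (1 + k) := by positivity
    have h9 : (((Finset.Icc (a - r) (a + r)).filter (fun x => (x - a).natAbs = k)).card : ℝ) ≤ 2 :=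
      by exact_mod_cast h6
    exact mul_le_mul_of_nonneg_right h9 h8
  refine (Finset.sum_le_sum h2).trans ?_
  rw [← Finset.mul_sum]
  have h3 := sum_inv_sqrt (r + 1)
  push_cast at h3
  linarith

/-- LAT -/
theorem lat : LatStmt := by
  refine ⟨17, by norm_num, fun Q s R hR hQ => ?_⟩
  obtain ⟨r, hr⟩ : ∃ r : ℕ, r = ⌊R⌋₊ := ⟨_, rfl⟩
  have hrR : (r : ℝ) ≤ R := by
    rw [hr]
    exact Nat.floor_le (by linarith)
  have hsub : Q ⊆ Finset.Icc (s.1 - r) (s.1 + r) ×ˢ Finset.Icc (s.2 - r) (s.2 + r) := by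
    intro q hq
    obtain ⟨h1, h2⟩ := hQ q hq
    have h3 : ∀ x y : ℤ, |(x : ℝ) - y| ≤ R → y - r ≤ x ∧ x ≤ y + r := by
      intro x y h
      have h5 : ((x - y : ℤ) : ℝ) = (x : ℝ) - y := by push_cast; ring
      rw [← h5, ← Int.cast_abs, Int.abs_eq_natAbs] at h
      have h6 : ((x - y).natAbs : ℝ) ≤ R := by
        rwa [Int.cast_natCast] at h
      have h7 : (x - y).natAbs ≤ r := by
        rw [hr]
        exact Nat.le_floor h6
      omega
    rw [Finset.mem_product, Finset.mem_Icc, Finset.mem_Icc]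
    exact ⟨h3 _ _ h1, h3 _ _ h2⟩
  have hc : ∀ a : ℤ, (Finset.Icc (a - r) (a + r)).card = 2 * r + 1 := by
    intro a
    rw [Int.card_Icc]
    omega
  have hr0 : (0 : ℝ) ≤ r := Nat.cast_nonneg r
  constructor
  · have h1 := Finset.card_le_card hsub
    rw [Finset.card_product, hc, hc] at h1
    have h2 : (Q.card : ℝ) ≤ (2 * r + 1) * (2 * r + 1) := by exact_mod_cast h1
    nlinarith
  · have h1 : ∑ q ∈ Q, 1 / Real.sqrt (1 + max |(q.1 : ℝ) - s.1| |(q.2 : ℝ) - s.2|) ≤
        ∑ q ∈ Finset.Icc (s.1 - r) (s.1 + r) ×ˢ Finset.Icc (s.2 - r) (s.2 + r),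
          1 / Real.sqrt (1 + |(q.1 : ℝ) - s.1|) := by
      refine (Finset.sum_le_sum (fun q _ => ?_)).trans
        (Finset.sum_le_sum_of_subset_of_nonneg hsub fun q _ _ => by positivity)
      apply one_div_le_one_div_of_le
      · apply Real.sqrt_pos.2
        positivity
      · apply Real.sqrt_le_sqrt
        have := le_max_left |(q.1 : ℝ) - s.1| |(q.2 : ℝ) - s.2|
        linarith
    refine h1.trans ?_
    rw [Finset.sum_product]
    have h2 : ∀ x ∈ Finset.Icc (s.1 - (r : ℤ)) (s.1 + r),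
        ∑ y ∈ Finset.Icc (s.2 - (r : ℤ)) (s.2 + r), 1 / Real.sqrt (1 + |(x : ℝ) - s.1|) =
        (2 * r + 1) * (1 / Real.sqrt (1 + |(x : ℝ) - s.1|)) := by
      intro x _
      rw [Finset.sum_const, hc, nsmul_eq_mul]
      push_cast
      ring
    rw [Finset.sum_congr rfl h2, ← Finset.mul_sum]
    have h3 := sum_line s.1 r
    have h4 : Real.sqrt ((r : ℝ) + 1) ≤ 17 / 12 * Real.sqrt R := by
      apply Real.sqrt_le_iff.2
      constructor
      · positivity
      · rw [mul_pow, Real.sq_sqrt (by linarith)]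
        linarith
    have h5 : 0 ≤ Real.sqrt R := Real.sqrt_nonneg R
    have h6 : (2 * (r : ℝ) + 1) ≤ 3 * R := by linarith
    have h7 : (0 : ℝ) ≤ 2 * r + 1 := by positivity
    calc (2 * (r : ℝ) + 1) * ∑ x ∈ Finset.Icc (s.1 - (r : ℤ)) (s.1 + r),
          1 / Real.sqrt (1 + |(x : ℝ) - s.1|)
        ≤ (2 * (r : ℝ) + 1) * (4 * (17 / 12 * Real.sqrt R)) :=
          mul_le_mul_of_nonneg_left (h3.trans (by linarith)) h7
      _ ≤ 3 * R * (4 * (17 / 12 * Real.sqrt R)) :=
          mul_le_mul_of_nonneg_right h6 (by positivity)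
      _ = 17 * (R * Real.sqrt R) := by ring

end

end Pool.Agent.CRT.H16
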